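import Pool.Agent.TH872.Sq.W17

set_option autoImplicit false

namespace Pool.Agent.Results.MP_8be758_nt.DigitRestrictedArguments
open Finset
open Pool.Agent.TH872.Sq (qv dg ld fx th nu1 SD SgD1 main_vm1 main_pos1 th_le quad_roots dg_ne nu1_euler SgD1_split)

/-- the integers below `b ^ k` whose `i`-th digit in base `b` belongs to `D i` for all `i < k` -/
def S (b : ℕ) (D : ℕ → Finset ℕ) (k : ℕ) : Finset ℕ := (range (b ^ k)).filter (fun n : ℕ => ∀ i < k, n / b ^ i % b ∈ D i)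

/-- the primes up to `z` -/
def primes (z : ℕ) : Finset ℕ := (Icc 1 z).filter Nat.Prime

/-- the sum of `log (x ^ 2 + x + A)` over the `x` in `S` for which `x ^ 2 + x + A` is prime -/
noncomputable def R (b : ℕ) (D : ℕ → Finset ℕ) (k A : ℕ) : ℝ :=
  ∑ x ∈ (S b D k).filter (fun x : ℕ => (x ^ 2 + x + A).Prime), Real.log ((x ^ 2 + x + A : ℕ) : ℝ)

/-- the number of the `x` in `S` such that no prime `p ≤ b` divides `x ^ 2 + x + A` -/
def loc (b : ℕ) (D : ℕ → Finset ℕ) (k A : ℕ) : ℕ := ((S b D k).filter (fun x : ℕ => ∀ p ∈ primes b, ¬ p ∣ x ^ 2 + x + A)).card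

/-- the predicted average -/
noncomputable def sigma (b : ℕ) (D : ℕ → Finset ℕ) (k A z : ℕ) : ℝ :=
  (∏ p ∈ primes b, (1 - 1 / (p : ℝ)))⁻¹ * ((loc b D k A : ℝ) / (S b D k).card) *
    ∏ p ∈ (primes z).filter (fun p => b < p), (1 - (jacobiSym (1 - 4 * (A : ℤ)) p : ℝ) / ((p : ℝ) - 1))

lemma qv_eq (x A : ℕ) : qv 1 1 x + 1 * (A : ℤ) = ((x ^ 2 + x + A : ℕ) : ℤ) := by
  unfold qv; push_cast; ring

lemma loc_eq (b : ℕ) (D : ℕ → Finset ℕ) (k A : ℕ) :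
    ((SD b D k).filter (fun n : ℕ => ∀ p ∈ Pool.Agent.H373R2.T7.pz b, ¬ (p : ℤ) ∣ 1 * (n : ℤ) ^ 2 + 1 * n + 1 * (A : ℤ))).card = loc b D k A := by
  unfold loc
  congr 1
  apply filter_congr
  intro n _
  rw [show (1 : ℤ) * (n : ℤ) ^ 2 + 1 * n + 1 * (A : ℤ) = ((n ^ 2 + n + A : ℕ) : ℤ) by push_cast; ring]
  apply forall₂_congr
  intro p _
  rw [Int.natCast_dvd_natCast]

lemma sig_eq (b : ℕ) (hb : 2 ≤ b) (D : ℕ → Finset ℕ) (k A z : ℕ) (hz : b ≤ z) : SgD1 b D k 1 1 (1 * (A : ℤ)) z = sigma b D k A z := by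
  rw [SgD1_split b D k 1 1 _ z hz, loc_eq]
  unfold sigma
  have h1 : ∏ p ∈ (Pool.Agent.H373R2.T7.pz z).filter (fun p => b < p), ((1 - (nu1 1 1 (1 * (A : ℤ)) p : ℝ) / p) / (1 - 1 / (p : ℝ))) =
      ∏ p ∈ (primes z).filter (fun p => b < p), (1 - (jacobiSym (1 - 4 * (A : ℤ)) p : ℝ) / ((p : ℝ) - 1)) := by
    apply prod_congr rfl
    intro p hp
    rw [mem_filter, Pool.Agent.H373R2.T7.mem_pz] at hp
    have hp2 : p ≠ 2 := by omega
    have h2 : ((nu1 1 1 (1 * (A : ℤ)) p : ℤ) : ℝ) = ((jacobiSym (1 - 4 * (A : ℤ)) p + 1 : ℤ) : ℝ) := by rw [nu1_euler A p hp.1.2 hp2]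
    push_cast at h2
    rw [h2]
    have hp1 : (1 : ℝ) < p := by exact_mod_cast hp.1.2.one_lt
    have h3 : (p : ℝ) - 1 ≠ 0 := by linarith
    have h4 : (p : ℝ) ≠ 0 := by linarith
    field_simp
    ring
  rw [h1]
  rfl

lemma R_eq (b : ℕ) (D : ℕ → Finset ℕ) (k A : ℕ) (hA : 1 ≤ A) :
    ∑ n ∈ SD b D k, fx th (qv 1 1 n + 1 * (A : ℤ)) = R b D k A := by
  unfold R
  rw [sum_filter]
  apply sum_congr rfl
  intro n _
  rw [qv_eq]
  unfold fx th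
  rw [if_pos (by exact_mod_cast (by omega : 1 ≤ n ^ 2 + n + A)), Int.toNat_natCast]

/-- **Hardy and Littlewood's Conjecture F for `x ^ 2 + x + A` over integers `x` with restricted digits, for almost all `A`.** -/
theorem result (b : ℕ) (hb : 2 ≤ b) (F C U : ℕ) : ∃ B : ℕ, ∀ E : ℕ, ∃ K₀ : ℕ, ∀ k : ℕ, K₀ ≤ k → ∀ z : ℕ,
    (k : ℝ) ^ B ≤ z → (z : ℝ) ≤ (k : ℝ) ^ E → ∀ D : ℕ → Finset ℕ, (∀ i < k, D i ⊆ range b ∧ 2 ≤ (D i).card) →
    ∀ X : ℕ, b ^ (2 * k) ≤ X → X ≤ F * b ^ (2 * k) →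
    (((Icc 1 X).filter (fun A : ℕ =>
      1 / (k : ℝ) ^ U < |R b D k A / (S b D k).card - sigma b D k A z|)).card : ℝ) ≤ (X : ℝ) / (k : ℝ) ^ U ∧
    (((Icc 1 X).filter (fun A : ℕ => ((S b D k).card : ℝ) / (k : ℝ) ^ C ≤ (loc b D k A : ℝ) ∧
      (((S b D k).filter (fun x : ℕ => (x ^ 2 + x + A).Prime)).card : ℝ) < ((S b D k).card : ℝ) / (k : ℝ) ^ (C + 12))).card : ℝ) ≤
      (X : ℝ) / (k : ℝ) ^ U := by
  classical
  have hld : ld 1 1 ≠ 0 := by decide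
  have hdg : dg 1 = 2 := dg_ne (by decide)
  obtain ⟨B, h1⟩ := main_vm1 b hb 1 1 hld th (fun n => ⟨le_rfl, th_le n⟩) F U
  obtain ⟨K2, h2⟩ := main_pos1 b hb 1 1 hld F C U
  refine ⟨B + 1, fun E => ?_⟩
  obtain ⟨K1, h1⟩ := h1 E
  refine ⟨K1 + K2 + b, fun k hk z hz1 hz2 D hD X hX1 hX2 => ?_⟩
  have hk2 : (1 : ℝ) ≤ k := by exact_mod_cast (by omega : 1 ≤ k)
  have hz1' : (k : ℝ) ^ B ≤ z := (pow_le_pow_right₀ hk2 (Nat.le_succ B)).trans hz1
  have hbz : b ≤ z := by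
    have h4 : (k : ℝ) ≤ (k : ℝ) ^ (B + 1) := le_self_pow₀ hk2 (by omega)
    have h5 : (k : ℝ) ≤ z := h4.trans hz1
    have h6 : k ≤ z := by exact_mod_cast h5
    omega
  have hpos : ∀ A : ℕ, 1 ≤ A → ∀ n < b ^ k, 1 ≤ qv 1 1 n + 1 * (A : ℤ) := by
    intro A hA n _
    rw [qv_eq]
    exact_mod_cast (by omega : 1 ≤ n ^ 2 + n + A)
  constructor
  · apply h1 k (by omega) z hz1' hz2 D hD 1 (Or.inl rfl) X (by rw [hdg]; exact hX1) (by rw [hdg]; exact hX2)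
    intro A hA hQ
    rw [mem_Icc] at hA
    refine ⟨hpos A hA.1, ?_⟩
    rw [sig_eq b hb D k A z hbz, R_eq b D k A hA.1, one_div_mul_eq_div]
    exact hQ
  · apply h2 k (by omega) D hD 1 (Or.inl rfl) X (by rw [hdg]; exact hX1) (by rw [hdg]; exact hX2)
    intro A hA hQ
    rw [mem_Icc] at hA
    refine ⟨hpos A hA.1, ?_, ?_, ?_⟩
    · intro p hp hbp
      have h4 := quad_roots p hp 1 1 (1 * (A : ℤ)) (by
        unfold ld
        rw [if_neg (by decide)]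
        intro h5
        have h6 : p ∣ 1 := by
          have := Int.natAbs_dvd_natAbs.2 h5
          simpa using this
        exact hp.one_lt.ne' (Nat.dvd_one.1 h6))
      have h5 : nu1 1 1 (1 * (A : ℤ)) p ≤ 2 := h4
      omega
    · rw [loc_eq]
      exact hQ.1
    · refine lt_of_le_of_lt (le_of_eq ?_) hQ.2
      congr 2
      apply filter_congr
      intro n _
      rw [qv_eq, Int.toNat_natCast]

end Pool.Agent.Results.MP_8be758_nt.DigitRestrictedArguments
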