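import Mathlib
import Pool.Agent.TH890.DV.C2

/-!
Squarefree values of `m^2 + m + A`, `A = 3, 5, 11, 17, 41`: for every modulus `k` each residue class
of the number of prime factors contains at least `X / (log X)^(log 2 + ε)` of them.

The starting file `SquarefreeEulerResidues` of this problem has `X / (log X)^(2 log 2 + ε)`. The
equidistribution over pairs `(d, d')` proved there is used; the passage from pairs to integers with the
exponent `log 2 + ε` is new (`Pool/Agent/TH890/DV`).
-/

set_option autoImplicit false

namespace Pool.Agent.Results.MP_8be758_nt.SquarefreeEulerLogTwo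

open Finset Filter ArithmeticFunction

open scoped Classical in
/-- the number of the integers `0 ≤ m ≤ X`, `m ≡ u mod q`, for which `m^2 + m + A` is squarefree
and the number of its prime factors is congruent to `j` modulo `k` -/
noncomputable def count (A q u k j X : ℕ) : ℕ :=
  ((range (X + 1)).filter (fun m : ℕ => m ≡ u [MOD q] ∧ Squarefree (m ^ 2 + m + A) ∧
    cardFactors (m ^ 2 + m + A) ≡ j [MOD k])).card

open scoped Classical in
/-- the set of the positive integers `X` with `P X` has logarithmic density `0` -/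
def LogNull (P : ℕ → Prop) : Prop :=
  Tendsto (fun Z : ℕ => (∑ X ∈ (Icc 1 Z).filter P, 1 / (X : ℝ)) / Real.log Z) atTop (nhds 0)

/-- Let `A` be one of `3, 5, 11, 17, 41`, and let `k, q ≥ 1` and `u ≥ 0` be such that `u^2 + u + A` is
not divisible by the square of a prime whose square divides `q`. For each `j`, every `ε > 0` and
almost all `X`, at least `X / (log X)^(log 2 + ε)` of the integers `0 ≤ m ≤ X`, `m ≡ u mod q`, have
`m^2 + m + A` squarefree with a number of prime factors congruent to `j` modulo `k`. -/
theorem result (A : ℕ) (hA : A = 3 ∨ A = 5 ∨ A = 11 ∨ A = 17 ∨ A = 41) (k q u : ℕ) (hk : 1 ≤ k)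
    (hq : 1 ≤ q) (hu : ∀ l : ℕ, l.Prime → l ^ 2 ∣ q → ¬ l ^ 2 ∣ u ^ 2 + u + A) (j : ℕ) (ε : ℝ)
    (hε : 0 < ε) :
    LogNull (fun X => (count A q u k j X : ℝ) < X / Real.log X ^ (Real.log 2 + ε)) :=
  (Pool.Agent.TH890.DV.sqf9L (t := 1) (c := A) (A := 1) (β := 0) (e := A)
    ⟨le_rfl, by norm_num, by omega, by ring, squarefree_one, fun m => Nat.coprime_one_left _⟩
    (by rcases hA with rfl | rfl | rfl | rfl | rfl <;> simp) hk hq u (fun m => m ^ 2 + m + A)
    (fun m => by unfold Pool.Agent.W78.EGQ.fq; ring) hu).2.2.1 j ε hε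

end Pool.Agent.Results.MP_8be758_nt.SquarefreeEulerLogTwo
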